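import Pool.Agent.Y494.PK.Stm

/-!
Project PK (MP_490135_co): counting lemmas used by `Pl`, `K1c`, `K1a5`, `K14`.
-/

namespace Pool.Agent.Y433.PK

open Pool.Agent.Y494.PK

/-- counting by fibres -/
theorem ncard_le_mul {A B : Type*} [Finite A] [Finite B] (X : Set A) (f : A → B) (Y : Set B)
    (n : ℕ) (hf : ∀ x ∈ X, f x ∈ Y) (hn : ∀ y ∈ Y, {x | x ∈ X ∧ f x = y}.ncard ≤ n) :
    X.ncard ≤ Y.ncard * n := by
  classical
  have := Fintype.ofFinite A
  have := Fintype.ofFinite B
  rw [Set.ncard_eq_toFinset_card', Set.ncard_eq_toFinset_card', mul_comm]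
  refine Finset.card_le_mul_card_image_of_maps_to (f := f) (fun x hx => ?_) n (fun y hy => ?_)
  · rw [Set.mem_toFinset] at hx ⊢
    exact hf x hx
  · rw [Set.mem_toFinset] at hy
    refine le_trans (le_of_eq ?_) (hn y hy)
    rw [Set.ncard_eq_toFinset_card']
    congr 1
    ext x
    simp

/-- the bijections with a given word of classes -/
theorem fib {α β ι : Type} [Fintype α] [Fintype β] [Fintype ι] (g : β → ι) (w : α → ι) :
    {t : α ≃ β | ∀ j, g (t j) = w j}.ncard ≤ ∏ i : ι, ({b | g b = i}.ncard).factorial := by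
  classical
  by_cases hne : ∃ t0 : α ≃ β, ∀ j, g (t0 j) = w j
  · obtain ⟨t0, h0⟩ := hne
    have key : {t : α ≃ β | ∀ j, g (t j) = w j}.ncard ≤
        Nat.card {σ : Equiv.Perm β // g ∘ σ = g} := by
      rw [← Nat.card_coe_set_eq]
      refine Nat.card_le_card_of_injective
        (fun t => ⟨t0.symm.trans t.1, ?_⟩) ?_
      · funext b
        have h1 := t.2 (t0.symm b)
        have h2 := h0 (t0.symm b)
        simp only [Equiv.apply_symm_apply] at h2
        simp only [Function.comp_apply, Equiv.trans_apply]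
        rw [h1, h2]
      · intro t t' h
        have h1 := congrArg Subtype.val h
        simp only at h1
        apply Subtype.ext
        ext j
        have h2 := congrArg (fun σ : β ≃ β => σ (t0 j)) h1
        simpa using h2
    refine key.trans (le_of_eq ?_)
    rw [Nat.card_eq_fintype_card, DomMulAct.stabilizer_card]
    refine Finset.prod_congr rfl fun i _ => ?_
    rw [← Nat.card_coe_set_eq, Nat.card_eq_fintype_card]
    rfl
  · have : {t : α ≃ β | ∀ j, g (t j) = w j} = ∅ := by
      ext t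
      simp only [Set.mem_ofPred_eq, Set.mem_empty_iff_false, iff_false]
      exact fun h => hne ⟨t, h⟩
    rw [this]
    simp

/-- the bijections whose words of classes are in a given set -/
theorem fibW {α β ι : Type} [Fintype α] [Fintype β] [Fintype ι] (g : β → ι)
    (X : Set (α ≃ β)) (W : Set (α → ι)) (h : ∀ t ∈ X, (fun j => g (t j)) ∈ W) :
    X.ncard ≤ W.ncard * ∏ i : ι, ({b | g b = i}.ncard).factorial := by
  classical
  refine ncard_le_mul X (fun t => fun j => g (t j)) W _ h fun w _ => ?_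
  refine le_trans (Set.ncard_le_ncard ?_ (Set.toFinite _)) (fib g w)
  rintro t ⟨_, h2⟩ j
  exact congrFun h2 j

/-- a leading configuration is a cover -/
theorem lead_cov {Q : Type} {l : ℕ} {R : SimpleGraph Q} {T : Fin l → Set Q} (hc : Clq R T)
    {e : Fin l ≃ Q} {i : ℕ} {t : Equiv.Perm (Fin l)} (h : Lead1 T e i t) : Cov R i e := by
  obtain ⟨h1, h2, h3, h4⟩ := h
  refine ⟨h1, fun j k hjk hji => ?_⟩
  have hne : e j ≠ e k := by
    intro h
    have := e.injective h
    rw [this] at hjk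
    omega
  rcases Nat.lt_or_ge (j : ℕ) i with hj | hj
  · exact hc (t k) _ (h3 j k hjk (by omega)) _ (h2 k) hne
  · exact hc (t j) _ (h2 j) _ (h4 j k hjk (by omega)) hne

/-- reversal -/
theorem lead_rev {Q : Type} {l : ℕ} {T : Fin l → Set Q}
    {e : Fin l ≃ Q} {i : ℕ} {t : Equiv.Perm (Fin l)} (h : Lead1 T e i t) :
    Lead1 T (Fin.revPerm.trans e) (l - 2 - i) (Fin.revPerm.trans t) := by
  obtain ⟨h1, h2, h3, h4⟩ := h
  refine ⟨by omega, fun j => h2 _, fun j k hjk hk => ?_, fun j k hjk hj => ?_⟩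
  · simp only [Equiv.trans_apply, Fin.revPerm_apply]
    refine h4 _ _ ?_ ?_
    · simp only [Fin.val_rev]; omega
    · simp only [Fin.val_rev]; omega
  · simp only [Equiv.trans_apply, Fin.revPerm_apply]
    refine h3 _ _ ?_ ?_
    · simp only [Fin.val_rev]; omega
    · simp only [Fin.val_rev]; omega

/-- hubs away from the break are in two types -/
theorem lead_two {Q : Type} {l : ℕ} {T : Fin l → Set Q}
    {e : Fin l ≃ Q} {i : ℕ} {t : Equiv.Perm (Fin l)} (h : Lead1 T e i t) (j : Fin l)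
    (hj : (j : ℕ) ≠ i) (hj' : (j : ℕ) ≠ i + 1) : 2 ≤ dX T (e j) := by
  obtain ⟨h1, h2, h3, h4⟩ := h
  unfold dX
  rw [show (2 : ℕ) = 1 + 1 from rfl, Nat.succ_le_iff, Set.one_lt_ncard (Set.toFinite _)]
  rcases Nat.lt_or_ge (j : ℕ) i with hlt | hge
  · have hk : (j : ℕ) + 1 < l := by omega
    refine ⟨t j, h2 j, t ⟨(j : ℕ) + 1, hk⟩, h3 j ⟨(j : ℕ) + 1, hk⟩ rfl (by simp; omega), ?_⟩
    intro h
    have := congrArg Fin.val (t.injective h)
    simp at this
  · have hk : (j : ℕ) - 1 < l := by omega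
    refine ⟨t j, h2 j, t ⟨(j : ℕ) - 1, hk⟩, h4 ⟨(j : ℕ) - 1, hk⟩ j (by simp; omega)
      (by simp; omega), ?_⟩
    intro h
    have := congrArg Fin.val (t.injective h)
    simp at this
    omega

end Pool.Agent.Y433.PK
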