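import Pool.Agent.Y433.PK.Base

/-!
Project PK (MP_490135_co): two pendant hubs (`S_K1c`).
-/

namespace Pool.Agent.Y433.PK

open Pool.Agent.Y494.PK

/-- bijections with two prescribed values -/
theorem two_fixed {α β : Type} [Fintype α] [Fintype β] {l : ℕ} (hl : Fintype.card β = l)
    {i k : α} (hik : i ≠ k) {x y : β} (hxy : x ≠ y) :
    {e : α ≃ β | e i = x ∧ e k = y}.ncard ≤ (l - 2).factorial := by
  classical
  set g : β → Fin 3 := fun b => if b = x then 0 else if b = y then 1 else 2 with hg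
  set w : α → Fin 3 := fun j => if j = i then 0 else if j = k then 1 else 2 with hw
  have hsub : {e : α ≃ β | e i = x ∧ e k = y} ⊆ {e | ∀ j, g (e j) = w j} := by
    rintro e ⟨h1, h2⟩ j
    by_cases hj : j = i
    · subst hj; simp [hg, hw, h1]
    · by_cases hj' : j = k
      · subst hj'; simp [hg, hw, h2, hik.symm, hxy.symm]
      · have a1 : e j ≠ x := by rw [← h1]; exact fun h => hj (e.injective h)
        have a2 : e j ≠ y := by rw [← h2]; exact fun h => hj' (e.injective h)
        simp [hg, hw, hj, hj', a1, a2]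
  refine (Set.ncard_le_ncard hsub (Set.toFinite _)).trans ((fib g w).trans ?_)
  rw [Fin.prod_univ_three]
  have c0 : {b | g b = 0} = {x} := by
    ext b
    by_cases h1 : b = x
    · simp [hg, h1]
    · by_cases h2 : b = y <;> simp [hg, h1, h2]
  have c1 : {b | g b = 1} = {y} := by
    ext b
    by_cases h1 : b = x
    · simp [hg, h1, hxy]
    · by_cases h2 : b = y <;> simp [hg, h1, h2]
      exact hxy.symm
  have c2 : {b | g b = 2} = {x, y}ᶜ := by
    ext b
    by_cases h1 : b = x
    · simp [hg, h1]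
    · by_cases h2 : b = y
      · simp [hg, h2, hxy.symm]
      · simp [hg, h1, h2]
  rw [c0, c1, c2, Set.ncard_compl, Set.ncard_pair hxy, Nat.card_eq_fintype_card, hl]
  simp

/-- bijections with one prescribed value -/
theorem one_fixed {α β : Type} [Fintype α] [Fintype β] {l : ℕ} (hl : Fintype.card β = l)
    (i : α) (x : β) :
    {e : α ≃ β | e i = x}.ncard ≤ (l - 1).factorial := by
  classical
  set g : β → Fin 2 := fun b => if b = x then 0 else 1 with hg
  set w : α → Fin 2 := fun j => if j = i then 0 else 1 with hw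
  have hsub : {e : α ≃ β | e i = x} ⊆ {e | ∀ j, g (e j) = w j} := by
    rintro e h1 j
    by_cases hj : j = i
    · subst hj; simp only [Set.mem_ofPred_eq] at h1; simp [hg, hw, h1]
    · have a1 : e j ≠ x := by
        simp only [Set.mem_ofPred_eq] at h1
        rw [← h1]; exact fun h => hj (e.injective h)
      simp [hg, hw, hj, a1]
  refine (Set.ncard_le_ncard hsub (Set.toFinite _)).trans ((fib g w).trans ?_)
  rw [Fin.prod_univ_two]
  have c0 : {b | g b = 0} = {x} := by
    ext b
    by_cases h1 : b = x <;> simp [hg, h1]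
  have c1 : {b | g b = 1} = {x}ᶜ := by
    ext b
    by_cases h1 : b = x <;> simp [hg, h1]
  rw [c0, c1, Set.ncard_compl, Nat.card_eq_fintype_card, hl]
  simp

/-- leading configurations with given hubs of low degree around the break -/
theorem k1c_class {Q : Type} [Fintype Q] {l : ℕ} (hQ : Fintype.card Q = l) (T : Fin l → Set Q)
    (x x' : Q) (hxx : x ≠ x') (hx : dX T x ≤ 1) (hx' : dX T x' ≤ 1) (i k : Fin l)
    (hk : (k : ℕ) = i + 1) :
    {p : (Fin l ≃ Q) × Fin l × Equiv.Perm (Fin l) | Lead1 T p.1 (p.2.1 : ℕ) p.2.2 ∧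
      p.2.1 = i ∧ p.1 i = x ∧ p.1 k = x'}.ncard ≤ (l - 2).factorial * (l - 2).factorial := by
  classical
  set X := {p : (Fin l ≃ Q) × Fin l × Equiv.Perm (Fin l) | Lead1 T p.1 (p.2.1 : ℕ) p.2.2 ∧
      p.2.1 = i ∧ p.1 i = x ∧ p.1 k = x'} with hX
  have hik : i ≠ k := by intro h; rw [h] at hk; omega
  rcases X.eq_empty_or_nonempty with h0 | ⟨⟨e0, i0, t0⟩, hL0, hi0, he0, he0'⟩
  · rw [h0]; simp
  have ux : ∀ y y' : Fin l, x ∈ T y → x ∈ T y' → y = y' := by
    unfold dX at hx
    rw [Set.ncard_le_one (Set.toFinite _)] at hx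
    exact fun y y' h h' => hx y h y' h'
  have ux' : ∀ y y' : Fin l, x' ∈ T y → x' ∈ T y' → y = y' := by
    unfold dX at hx'
    rw [Set.ncard_le_one (Set.toFinite _)] at hx'
    exact fun y y' h h' => hx' y h y' h'
  have m1 : x ∈ T (t0 i) := by have := hL0.2.1 i; simp only at he0; rwa [he0] at this
  have m2 : x' ∈ T (t0 k) := by have := hL0.2.1 k; simp only at he0'; rwa [he0'] at this
  have hty : t0 i ≠ t0 k := fun h => hik (t0.injective h)
  have hA := two_fixed hQ (α := Fin l) hik hxx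
  have hB := two_fixed (Fintype.card_fin l) (α := Fin l) hik hty
  calc X.ncard ≤ ({e : Fin l ≃ Q | e i = x ∧ e k = x'} ×ˢ
        {t : Fin l ≃ Fin l | t i = t0 i ∧ t k = t0 k}).ncard := by
        refine Set.ncard_le_ncard_of_injOn (fun p => (p.1, p.2.2)) ?_ ?_ (Set.toFinite _)
        · rintro ⟨e, i', t⟩ ⟨h1, h2, h3, h4⟩
          simp only at h1 h2 h3 h4
          refine ⟨⟨h3, h4⟩, ?_, ?_⟩
          · exact ux _ _ (by have := h1.2.1 i; rwa [h3] at this) m1
          · exact ux' _ _ (by have := h1.2.1 k; rwa [h4] at this) m2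
        · rintro ⟨e, i', t⟩ ⟨h1, h2, h3, h4⟩ ⟨e', i'', t'⟩ ⟨h1', h2', h3', h4'⟩ heq
          simp only [Prod.mk.injEq] at heq h2 h2'
          rw [heq.1, heq.2, h2, h2']
    _ ≤ _ := by
        rw [Set.ncard_prod]
        exact Nat.mul_le_mul hA hB

/-- **S_K1c** -/
theorem k1c : S_K1c := by
  classical
  intro Q _ l R T v v' hl hQ hnt hc hne hv hv'
  unfold M1
  set Y : Set (Fin l × Bool) := {i : Fin l | (i : ℕ) + 1 < l} ×ˢ Set.univ with hY
  have hYc : Y.ncard = (l - 1) * 2 := by
    rw [hY, Set.ncard_prod]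
    congr 1
    · have : {i : Fin l | (i : ℕ) + 1 < l} = ((Finset.Iio (⟨l - 1, by omega⟩ : Fin l) :
          Finset (Fin l)) : Set (Fin l)) := by
        ext i
        simp only [Set.mem_ofPred_eq, Finset.coe_Iio, Set.mem_Iio, Fin.lt_def]
        omega
      rw [this, Set.ncard_coe_finset, Fin.card_Iio]
    · simp
  have h2 := ncard_le_mul {p : (Fin l ≃ Q) × Fin l × Equiv.Perm (Fin l) |
    Lead1 T p.1 (p.2.1 : ℕ) p.2.2} (fun p => (p.2.1, decide (p.1 p.2.1 = v)))
    Y ((l - 2).factorial * (l - 2).factorial) ?_ ?_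
  · refine h2.trans (le_of_eq ?_)
    rw [hYc]
    have : (l - 1).factorial = (l - 1) * (l - 2).factorial := by
      rw [show l - 1 = (l - 2) + 1 by omega, Nat.factorial_succ, show l - 2 + 1 = l - 1 by omega]
    rw [this]; ring
  · rintro ⟨e, i, t⟩ h
    exact ⟨h.1, trivial⟩
  · rintro ⟨i, b⟩ hib
    have hi : (i : ℕ) + 1 < l := hib.1
    -- the two hubs are around the break
    have hloc : ∀ (e : Fin l ≃ Q) (t : Equiv.Perm (Fin l)), Lead1 T e (i : ℕ) t →
        (e i = v ∧ e ⟨(i : ℕ) + 1, hi⟩ = v') ∨ (e i = v' ∧ e ⟨(i : ℕ) + 1, hi⟩ = v) := by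
      intro e t h
      have hpos : ∀ u : Q, dX T u ≤ 1 → u = e i ∨ u = e ⟨(i : ℕ) + 1, hi⟩ := by
        intro u hu
        by_contra hcon
        push Not at hcon
        have h3 := lead_two h (e.symm u) ?_ ?_
        · rw [Equiv.apply_symm_apply] at h3; omega
        · intro h4
          apply hcon.1
          have : e.symm u = i := Fin.ext h4
          rw [← this, Equiv.apply_symm_apply]
        · intro h4
          apply hcon.2
          have : e.symm u = ⟨(i : ℕ) + 1, hi⟩ := Fin.ext h4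
          rw [← this, Equiv.apply_symm_apply]
      rcases hpos v hv with h5 | h5 <;> rcases hpos v' hv' with h6 | h6
      · exact absurd (h5.trans h6.symm) hne
      · exact Or.inl ⟨h5.symm, h6.symm⟩
      · exact Or.inr ⟨h6.symm, h5.symm⟩
      · exact absurd (h5.trans h6.symm) hne
    cases b with
    | true =>
      refine le_trans (Set.ncard_le_ncard ?_ (Set.toFinite _))
        (k1c_class hQ T v v' hne hv hv' i ⟨(i : ℕ) + 1, hi⟩ rfl)
      rintro ⟨e, i', t⟩ ⟨h1, h3⟩
      simp only [Prod.mk.injEq, decide_eq_true_eq] at h3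
      obtain ⟨rfl, h4⟩ := h3
      rcases hloc e t h1 with h5 | h5
      · exact ⟨h1, rfl, h5.1, h5.2⟩
      · exact absurd (h4.symm.trans h5.1) hne
    | false =>
      refine le_trans (Set.ncard_le_ncard ?_ (Set.toFinite _))
        (k1c_class hQ T v' v hne.symm hv' hv i ⟨(i : ℕ) + 1, hi⟩ rfl)
      rintro ⟨e, i', t⟩ ⟨h1, h3⟩
      simp only [Prod.mk.injEq, decide_eq_false_iff_not] at h3
      obtain ⟨rfl, h4⟩ := h3
      rcases hloc e t h1 with h5 | h5
      · exact absurd h5.1 h4
      · exact ⟨h1, rfl, h5.1, h5.2⟩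

end Pool.Agent.Y433.PK
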