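import Pool.Agent.Y433.PK.K1a5
import Pool.Agent.Y433.PK.K1c

/-!
Project PK (MP_490135_co): four hubs (`S_K14`).
-/

namespace Pool.Agent.Y433.PK

open Pool.Agent.Y494.PK

theorem nt4 {Q : Type} {R : SimpleGraph Q} (hnt : NT 4 R) (e : Fin 4 ≃ Q)
    (a b c d : Fin 4) (hf : Function.Bijective ![a, b, c, d])
    (h1 : R.Adj (e a) (e b)) (h2 : R.Adj (e b) (e c)) (h3 : R.Adj (e c) (e d)) : False := by
  refine nt_seq hnt e _ hf ?_
  intro j k hjk
  fin_cases j <;> fin_cases k <;> simp at hjk <;> first | exact h1 | exact h2 | exact h3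

/-- `R` is two disjoint edges -/
theorem k14_two {Q : Type} [Fintype Q] {R : SimpleGraph Q} {T : Fin 4 → Set Q}
    (hQ : Fintype.card Q = 4) (hnt : NT 4 R) (hc : Clq R T) {e0 : Fin 4 ≃ Q}
    {t0 : Equiv.Perm (Fin 4)} (h : Lead1 T e0 1 t0) :
    M1 T ≤ 32 ∧ ∃ (a b c d : Q) (t : Equiv.Perm (Fin 4)),
    a ≠ b ∧ a ≠ c ∧ a ≠ d ∧ b ≠ c ∧ b ≠ d ∧ c ≠ d ∧ R.Adj a b ∧ R.Adj c d ∧
    (T (t 0)).Nonempty ∧ (T (t 1)).Nonempty ∧ (T (t 2)).Nonempty ∧ (T (t 3)).Nonempty ∧
    T (t 0) ⊆ {a, b} ∧ T (t 1) ⊆ {a, b} ∧ T (t 2) ⊆ {c, d} ∧ T (t 3) ⊆ {c, d} := by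
  classical
  have hcov := lead_cov hc h
  have a01 : R.Adj (e0 0) (e0 1) := hcov.2 0 1 rfl (by simp)
  have a23 : R.Adj (e0 2) (e0 3) := hcov.2 2 3 rfl (by simp)
  have n12 : ¬ R.Adj (e0 1) (e0 2) := fun h => nt4 hnt e0 0 1 2 3 (by decide) a01 h a23
  have n13 : ¬ R.Adj (e0 1) (e0 3) := fun h => nt4 hnt e0 0 1 3 2 (by decide) a01 h a23.symm
  have n02 : ¬ R.Adj (e0 0) (e0 2) := fun h => nt4 hnt e0 1 0 2 3 (by decide) a01.symm h a23
  have n03 : ¬ R.Adj (e0 0) (e0 3) := fun h =>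
    nt4 hnt e0 1 0 3 2 (by decide) a01.symm h a23.symm
  have cls : ∀ p q : Fin 4, R.Adj (e0 p) (e0 q) → ((p : ℕ) ≤ 1 ↔ (q : ℕ) ≤ 1) := by
    intro p q h
    fin_cases p <;> fin_cases q <;>
      first
      | (simp; done)
      | exact absurd h n12
      | exact absurd h n13
      | exact absurd h n02
      | exact absurd h n03
      | exact absurd h.symm n12
      | exact absurd h.symm n13
      | exact absurd h.symm n02
      | exact absurd h.symm n03
  -- hubs and lows of the same side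
  have same : ∀ p j : Fin 4, e0 p ∈ T (t0 j) → ((p : ℕ) ≤ 1 ↔ (j : ℕ) ≤ 1) := by
    intro p j hp
    by_cases hpj : p = j
    · rw [hpj]
    · exact cls p j (hc (t0 j) _ hp _ (h.2.1 j) (fun hh => hpj (e0.injective hh)))
  set g : Q → Fin 2 := fun q => if ((e0.symm q : Fin 4) : ℕ) ≤ 1 then 0 else 1 with hg
  set gl : Fin 4 → Fin 2 := fun x => if ((t0.symm x : Fin 4) : ℕ) ≤ 1 then 0 else 1 with hgl
  have hgg : ∀ q x, q ∈ T x → gl x = g q := by
    intro q x hqx
    obtain ⟨p, rfl⟩ := e0.surjective q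
    obtain ⟨j, rfl⟩ := t0.surjective x
    have := same p j hqx
    simp only [hg, hgl, Equiv.symm_apply_apply]
    by_cases hp : (p : ℕ) ≤ 1
    · rw [if_pos hp, if_pos (this.1 hp)]
    · rw [if_neg hp, if_neg (fun h => hp (this.2 h))]
  have cg : ∏ i : Fin 2, ({b | g b = i}.ncard).factorial = 4 := by
    rw [Fin.prod_univ_two]
    have c0 : {b | g b = 0} = {e0 0, e0 1} := by
      ext b
      obtain ⟨p, rfl⟩ := e0.surjective b
      simp only [hg, Set.mem_ofPred_eq, Equiv.symm_apply_apply, Set.mem_insert_iff,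
        Set.mem_singleton_iff, EmbeddingLike.apply_eq_iff_eq]
      revert p; decide
    have c1 : {b | g b = 1} = {e0 0, e0 1}ᶜ := by
      rw [← c0]
      ext b
      simp only [Set.mem_ofPred_eq, Set.mem_compl_iff]
      generalize g b = y
      revert y; decide
    rw [c0, c1, Set.ncard_compl, Set.ncard_pair (by simp), Nat.card_eq_fintype_card, hQ]
    decide
  have cgl : ∏ i : Fin 2, ({b | gl b = i}.ncard).factorial = 4 := by
    rw [Fin.prod_univ_two]
    have c0 : {b | gl b = 0} = {t0 0, t0 1} := by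
      ext b
      obtain ⟨p, rfl⟩ := t0.surjective b
      simp only [hgl, Set.mem_ofPred_eq, Equiv.symm_apply_apply, Set.mem_insert_iff,
        Set.mem_singleton_iff, EmbeddingLike.apply_eq_iff_eq]
      revert p; decide
    have c1 : {b | gl b = 1} = {t0 0, t0 1}ᶜ := by
      rw [← c0]
      ext b
      simp only [Set.mem_ofPred_eq, Set.mem_compl_iff]
      generalize gl b = y
      revert y; decide
    rw [c0, c1, Set.ncard_compl, Set.ncard_pair (by simp), Nat.card_eq_fintype_card,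
      Fintype.card_fin]
    decide
  refine ⟨?_, e0 0, e0 1, e0 2, e0 3, t0, by simp, by simp, by simp, by simp, by simp, by simp,
    a01, a23, ⟨_, h.2.1 0⟩, ⟨_, h.2.1 1⟩, ⟨_, h.2.1 2⟩, ⟨_, h.2.1 3⟩, ?_, ?_, ?_, ?_⟩
  · unfold M1
    set w1 : Fin 4 → Fin 2 := ![0, 0, 1, 1] with hw1
    set w2 : Fin 4 → Fin 2 := ![1, 1, 0, 0] with hw2
    set Y0 : Set (Fin 4 ≃ Q) := {e | (fun j => g (e j)) ∈ ({w1, w2} : Set (Fin 4 → Fin 2))}
      with hY0
    have hY0c : Y0.ncard ≤ 8 := by
      have h1 := fibW g Y0 {w1, w2} (fun e he => he)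
      rw [cg] at h1
      have h2 := Set.ncard_insert_le w1 {w2}
      rw [Set.ncard_singleton] at h2
      omega
    set Y : Set ((Fin 4 ≃ Q) × Fin 4) := Y0 ×ˢ {1} with hY
    have hYc : Y.ncard ≤ 8 := by
      rw [hY, Set.ncard_prod, Set.ncard_singleton]; omega
    have h2 := ncard_le_mul {p : (Fin 4 ≃ Q) × Fin 4 × Equiv.Perm (Fin 4) |
      Lead1 T p.1 (p.2.1 : ℕ) p.2.2} (fun p => (p.1, p.2.1)) Y 4 ?_ ?_
    · omega
    · rintro ⟨e, i, t⟩ hL
      change Lead1 T e (i : ℕ) t at hL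
      have hcv := lead_cov hc hL
      have hadj : ∀ j k : Fin 4, (k : ℕ) = j + 1 → (j : ℕ) ≠ i →
          (((e0.symm (e j) : Fin 4) : ℕ) ≤ 1 ↔ ((e0.symm (e k) : Fin 4) : ℕ) ≤ 1) := by
        intro j k hjk hji
        refine cls _ _ ?_
        simpa using hcv.2 j k hjk hji
      have hinj : ∀ j k : Fin 4, j ≠ k → ((e0.symm (e j) : Fin 4) : ℕ) ≠ e0.symm (e k) := by
        intro j k hjk h
        exact hjk (e.injective (e0.symm.injective (Fin.ext h)))
      have d01 := hinj 0 1 (by decide)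
      have d02 := hinj 0 2 (by decide)
      have d03 := hinj 0 3 (by decide)
      have d12 := hinj 1 2 (by decide)
      have d13 := hinj 1 3 (by decide)
      have d23 := hinj 2 3 (by decide)
      have l0 := (e0.symm (e 0)).2
      have l1 := (e0.symm (e 1)).2
      have l2 := (e0.symm (e 2)).2
      have l3 := (e0.symm (e 3)).2
      have hi := hL.1
      have hi1 : i = 1 := by
        by_contra hne
        have hne' : (i : ℕ) ≠ 1 := fun h => hne (Fin.ext h)
        have c12 := hadj 1 2 rfl (by simpa using hne'.symm)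
        have : (i : ℕ) = 0 ∨ (i : ℕ) = 2 := by omega
        rcases this with h0 | h0
        · have c23 := hadj 2 3 rfl (by rw [h0]; simp)
          omega
        · have c01 := hadj 0 1 rfl (by rw [h0]; simp)
          omega
      subst hi1
      have c01 := hadj 0 1 rfl (by simp)
      have c23 := hadj 2 3 rfl (by simp)
      refine ⟨?_, rfl⟩
      simp only [hY0, Set.mem_ofPred_eq, Set.mem_insert_iff, Set.mem_singleton_iff]
      by_cases hx : ((e0.symm (e 0) : Fin 4) : ℕ) ≤ 1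
      · left
        have x1 := c01.1 hx
        have x2 : ¬ ((e0.symm (e 2) : Fin 4) : ℕ) ≤ 1 := by omega
        have x3 : ¬ ((e0.symm (e 3) : Fin 4) : ℕ) ≤ 1 := by omega
        funext j
        fin_cases j
        · simp [hg, hw1, hx]
        · simp [hg, hw1, x1]
        · simp [hg, hw1, x2]
        · simp [hg, hw1, x3]
      · right
        have x1 : ¬ ((e0.symm (e 1) : Fin 4) : ℕ) ≤ 1 := by omega
        have x2 : ((e0.symm (e 2) : Fin 4) : ℕ) ≤ 1 := by omega
        have x3 : ((e0.symm (e 3) : Fin 4) : ℕ) ≤ 1 := by omega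
        funext j
        fin_cases j
        · simp [hg, hw2, hx]
        · simp [hg, hw2, x1]
        · simp [hg, hw2, x2]
        · simp [hg, hw2, x3]
    · rintro ⟨e, i⟩ -
      have hf := fib gl (fun j => g (e j))
      rw [cgl] at hf
      refine le_trans ?_ hf
      refine Set.ncard_le_ncard_of_injOn (fun p => p.2.2) ?_ ?_ (Set.toFinite _)
      · rintro ⟨e', i', t⟩ ⟨h1, h2⟩
        simp only [Prod.mk.injEq] at h2
        obtain ⟨rfl, rfl⟩ := h2
        exact fun j => hgg _ _ (h1.2.1 j)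
      · rintro ⟨e', i', t⟩ ⟨h1, h2⟩ ⟨e'', i'', t'⟩ ⟨h1', h2'⟩ h
        simp only [Prod.mk.injEq] at h2 h2'
        obtain ⟨rfl, rfl⟩ := h2
        obtain ⟨rfl, rfl⟩ := h2'
        simp only at h
        rw [h]
  · intro q hq
    obtain ⟨p, rfl⟩ := e0.surjective q
    have := (same p 0 hq).2 (by simp)
    fin_cases p <;> simp at this ⊢
  · intro q hq
    obtain ⟨p, rfl⟩ := e0.surjective q
    have := (same p 1 hq).2 (by simp)
    fin_cases p <;> simp at this ⊢
  · intro q hq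
    obtain ⟨p, rfl⟩ := e0.surjective q
    have := mt (same p 2 hq).1 (by simp)
    fin_cases p <;> simp at this ⊢
  · intro q hq
    obtain ⟨p, rfl⟩ := e0.surjective q
    have := mt (same p 3 hq).1 (by simp)
    fin_cases p <;> simp at this ⊢

/-- `R` is a star -/
theorem k14_star {Q : Type} [Fintype Q] {R : SimpleGraph Q} {T : Fin 4 → Set Q}
    (hQ : Fintype.card Q = 4) (hnt : NT 4 R) (hc : Clq R T) (hiso : ∀ h, ∃ w, R.Adj h w)
    {e0 : Fin 4 ≃ Q} {t0 : Equiv.Perm (Fin 4)} (h : Lead1 T e0 0 t0) :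
    M1 T ≤ 24 := by
  classical
  have hcov := lead_cov hc h
  have a12 : R.Adj (e0 1) (e0 2) := hcov.2 1 2 rfl (by simp)
  have a23 : R.Adj (e0 2) (e0 3) := hcov.2 2 3 rfl (by simp)
  have n01 : ¬ R.Adj (e0 0) (e0 1) := fun h => nt4 hnt e0 0 1 2 3 (by decide) h a12 a23
  have n03 : ¬ R.Adj (e0 0) (e0 3) := fun h =>
    nt4 hnt e0 0 3 2 1 (by decide) h a23.symm a12.symm
  have a02 : R.Adj (e0 0) (e0 2) := by
    obtain ⟨w, hw⟩ := hiso (e0 0)
    obtain ⟨p, rfl⟩ := e0.surjective w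
    fin_cases p
    · exact absurd hw (R.irrefl)
    · exact absurd hw n01
    · exact hw
    · exact absurd hw n03
  have n13 : ¬ R.Adj (e0 1) (e0 3) := fun h => nt4 hnt e0 0 2 1 3 (by decide) a02 a12.symm h
  have cls : ∀ p q : Fin 4, R.Adj (e0 p) (e0 q) → ((p : ℕ) = 2 ∨ (q : ℕ) = 2) := by
    intro p q h
    fin_cases p <;> fin_cases q <;>
      first
      | (simp; done)
      | exact absurd h (R.irrefl)
      | exact absurd h n01
      | exact absurd h n03
      | exact absurd h n13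
      | exact absurd h.symm n01
      | exact absurd h.symm n03
      | exact absurd h.symm n13
  have m0 : e0 0 ∈ T (t0 0) := h.2.1 0
  have m1 : e0 1 ∈ T (t0 1) := h.2.1 1
  have m2 : e0 3 ∈ T (t0 2) := h.2.2.2 2 3 rfl (by simp)
  have m3 : e0 3 ∈ T (t0 3) := h.2.1 3
  set gl : Fin 4 → Fin 3 := fun x => if x = t0 0 then 0 else if x = t0 1 then 1 else 2 with hgl
  set g : Q → Fin 3 := fun q => if q = e0 0 then 0 else if q = e0 1 then 1 else 2 with hg
  have hgg : ∀ q x, q ∈ T x → q ≠ e0 2 → gl x = g q := by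
    intro q x hqx hq2
    obtain ⟨p, rfl⟩ := e0.surjective q
    obtain ⟨j, rfl⟩ := t0.surjective x
    have hadj : ∀ r : Fin 4, e0 r ∈ T (t0 j) → p ≠ r → R.Adj (e0 p) (e0 r) := fun r hr hpr =>
      hc (t0 j) _ hqx _ hr (fun hh => hpr (e0.injective hh))
    fin_cases p
    · fin_cases j
      · simp [hg, hgl]
      · exact absurd (hadj 1 m1 (by decide)) n01
      · exact absurd (hadj 3 m2 (by decide)) n03
      · exact absurd (hadj 3 m3 (by decide)) n03
    · fin_cases j
      · exact absurd (hadj 0 m0 (by decide)).symm n01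
      · simp [hg, hgl]
      · exact absurd (hadj 3 m2 (by decide)) n13
      · exact absurd (hadj 3 m3 (by decide)) n13
    · exact absurd rfl hq2
    · fin_cases j
      · exact absurd (hadj 0 m0 (by decide)).symm n03
      · exact absurd (hadj 1 m1 (by decide)).symm n13
      · simp [hg, hgl]
      · simp [hg, hgl]
  have cgl : ∏ i : Fin 3, ({b | gl b = i}.ncard).factorial = 2 := by
    rw [Fin.prod_univ_three]
    have c0 : {b | gl b = 0} = {t0 0} := by
      ext b
      obtain ⟨p, rfl⟩ := t0.surjective b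
      simp only [hgl, Set.mem_ofPred_eq, Set.mem_singleton_iff, EmbeddingLike.apply_eq_iff_eq]
      revert p; decide
    have c1 : {b | gl b = 1} = {t0 1} := by
      ext b
      obtain ⟨p, rfl⟩ := t0.surjective b
      simp only [hgl, Set.mem_ofPred_eq, Set.mem_singleton_iff, EmbeddingLike.apply_eq_iff_eq]
      revert p; decide
    have c2 : {b | gl b = 2} = {t0 0, t0 1}ᶜ := by
      ext b
      obtain ⟨p, rfl⟩ := t0.surjective b
      simp only [hgl, Set.mem_ofPred_eq, Set.mem_compl_iff, Set.mem_insert_iff,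
        Set.mem_singleton_iff, EmbeddingLike.apply_eq_iff_eq]
      revert p; decide
    rw [c0, c1, c2, Set.ncard_compl, Set.ncard_pair (by simp), Nat.card_eq_fintype_card,
      Fintype.card_fin]
    simp
  unfold M1
  set Y : Set ((Fin 4 ≃ Q) × Fin 4) := {e | e 2 = e0 2} ×ˢ {0} ∪ {e | e 1 = e0 2} ×ˢ {2} with hY
  have hYc : Y.ncard ≤ 12 := by
    refine (Set.ncard_union_le _ _).trans ?_
    rw [Set.ncard_prod, Set.ncard_prod, Set.ncard_singleton, Set.ncard_singleton]
    have h1 := one_fixed hQ (α := Fin 4) 2 (e0 2)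
    have h2 := one_fixed hQ (α := Fin 4) 1 (e0 2)
    have h3 : (4 - 1).factorial = 6 := by decide
    rw [h3] at h1 h2
    omega
  have h2 := ncard_le_mul {p : (Fin 4 ≃ Q) × Fin 4 × Equiv.Perm (Fin 4) |
    Lead1 T p.1 (p.2.1 : ℕ) p.2.2} (fun p => (p.1, p.2.1)) Y 2 ?_ ?_
  · omega
  · rintro ⟨e, i, t⟩ hL
    change Lead1 T e (i : ℕ) t at hL
    have hcv := lead_cov hc hL
    have hadj : ∀ j k : Fin 4, (k : ℕ) = j + 1 → (j : ℕ) ≠ i →
        (((e0.symm (e j) : Fin 4) : ℕ) = 2 ∨ ((e0.symm (e k) : Fin 4) : ℕ) = 2) := by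
      intro j k hjk hji
      refine cls _ _ ?_
      simpa using hcv.2 j k hjk hji
    have hinj : ∀ j k : Fin 4, j ≠ k → ((e0.symm (e j) : Fin 4) : ℕ) ≠ e0.symm (e k) := by
      intro j k hjk h
      exact hjk (e.injective (e0.symm.injective (Fin.ext h)))
    have back : ∀ j : Fin 4, ((e0.symm (e j) : Fin 4) : ℕ) = 2 → e j = e0 2 := by
      intro j hj
      have : e0.symm (e j) = 2 := Fin.ext hj
      rw [← this, Equiv.apply_symm_apply]
    have d02 := hinj 0 2 (by decide)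
    have d13 := hinj 1 3 (by decide)
    have d12 := hinj 1 2 (by decide)
    have d03 := hinj 0 3 (by decide)
    have hi := hL.1
    have hi' : (i : ℕ) = 0 ∨ (i : ℕ) = 1 ∨ (i : ℕ) = 2 := by omega
    rcases hi' with hi' | hi' | hi'
    · left
      have c12 := hadj 1 2 rfl (by rw [hi']; simp)
      have c23 := hadj 2 3 rfl (by rw [hi']; simp)
      exact ⟨back 2 (by omega), Fin.ext hi'⟩
    · exfalso
      have c01 := hadj 0 1 rfl (by rw [hi']; simp)
      have c23 := hadj 2 3 rfl (by rw [hi']; simp)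
      omega
    · right
      have c12 := hadj 1 2 rfl (by rw [hi']; simp)
      have c01 := hadj 0 1 rfl (by rw [hi']; simp)
      exact ⟨back 1 (by omega), Fin.ext hi'⟩
  · rintro ⟨e, i⟩ hei
    have hfin : ∀ w : Fin 4 → Fin 3,
        (∀ t : Equiv.Perm (Fin 4), Lead1 T e (i : ℕ) t → ∀ j, gl (t j) = w j) →
        {x | x ∈ {p : (Fin 4 ≃ Q) × Fin 4 × Equiv.Perm (Fin 4) |
          Lead1 T p.1 (p.2.1 : ℕ) p.2.2} ∧ (x.1, x.2.1) = (e, i)}.ncard ≤ 2 := by
      intro w hw
      have hf := fib gl w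
      rw [cgl] at hf
      refine le_trans ?_ hf
      refine Set.ncard_le_ncard_of_injOn (fun p => p.2.2) ?_ ?_ (Set.toFinite _)
      · rintro ⟨e', i', t⟩ ⟨h1, h2⟩
        simp only [Prod.mk.injEq] at h2
        obtain ⟨rfl, rfl⟩ := h2
        exact hw t h1
      · rintro ⟨e', i', t⟩ ⟨h1, h2⟩ ⟨e'', i'', t'⟩ ⟨h1', h2'⟩ h
        simp only [Prod.mk.injEq] at h2 h2'
        obtain ⟨rfl, rfl⟩ := h2
        obtain ⟨rfl, rfl⟩ := h2'
        simp only at h
        rw [h]
    rcases hei with ⟨h1, h2⟩ | ⟨h1, h2⟩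
    · simp only [Set.mem_ofPred_eq, Set.mem_singleton_iff] at h1 h2
      subst h2
      have hl : ∀ j : Fin 4, j ≠ 2 → e j ≠ e0 2 := by
        intro j hj hh
        exact hj (e.injective (hh.trans h1.symm))
      refine hfin ![g (e 0), g (e 1), g (e 3), g (e 3)] ?_
      intro t ht j
      fin_cases j
      · exact hgg _ _ (ht.2.1 0) (hl 0 (by decide))
      · exact hgg _ _ (ht.2.1 1) (hl 1 (by decide))
      · exact hgg _ _ (ht.2.2.2 2 3 rfl (by simp)) (hl 3 (by decide))
      · exact hgg _ _ (ht.2.1 3) (hl 3 (by decide))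
    · simp only [Set.mem_ofPred_eq, Set.mem_singleton_iff] at h1 h2
      subst h2
      have hl : ∀ j : Fin 4, j ≠ 1 → e j ≠ e0 2 := by
        intro j hj hh
        exact hj (e.injective (hh.trans h1.symm))
      refine hfin ![g (e 0), g (e 0), g (e 2), g (e 3)] ?_
      intro t ht j
      fin_cases j
      · exact hgg _ _ (ht.2.1 0) (hl 0 (by decide))
      · exact hgg _ _ (ht.2.2.1 0 1 rfl (by simp)) (hl 0 (by decide))
      · exact hgg _ _ (ht.2.1 2) (hl 2 (by decide))
      · exact hgg _ _ (ht.2.1 3) (hl 3 (by decide))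

/-- **S_K14** -/
theorem k14 : S_K14 := by
  classical
  intro Q _ R T hQ hnt hc hiso
  by_cases hex : ∃ (e : Fin 4 ≃ Q) (i : Fin 4) (t : Equiv.Perm (Fin 4)), Lead1 T e (i : ℕ) t
  · obtain ⟨e, i, t, h⟩ := hex
    have hi := h.1
    have hi' : (i : ℕ) = 0 ∨ (i : ℕ) = 1 ∨ (i : ℕ) = 2 := by omega
    rcases hi' with hi' | hi' | hi' <;> rw [hi'] at h
    · exact Or.inl (k14_star hQ hnt hc hiso h)
    · exact Or.inr (k14_two hQ hnt hc h)
    · exact Or.inl (k14_star hQ hnt hc hiso (lead_rev h))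
  · left
    unfold M1
    have : {p : (Fin 4 ≃ Q) × Fin 4 × Equiv.Perm (Fin 4) |
        Lead1 T p.1 (p.2.1 : ℕ) p.2.2} = ∅ := by
      ext ⟨e, i, t⟩
      simp only [Set.mem_ofPred_eq, Set.mem_empty_iff_false, iff_false]
      exact fun h => hex ⟨e, i, t, h⟩
    rw [this]
    simp

end Pool.Agent.Y433.PK
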