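import Pool.Agent.Y433.PK.Pl

/-!
Project PK (MP_490135_co): five hubs, none of them pendant (`S_K1a5`).
-/

namespace Pool.Agent.Y433.PK

open Pool.Agent.Y494.PK

theorem cov_rev {Q : Type} {l : ℕ} {R : SimpleGraph Q} {i : ℕ} {e : Fin l ≃ Q}
    (h : Cov R i e) : Cov R (l - 2 - i) (Fin.revPerm.trans e) := by
  obtain ⟨h1, h2⟩ := h
  refine ⟨by omega, fun j k hjk hj => ?_⟩
  simp only [Equiv.trans_apply, Fin.revPerm_apply]
  refine (h2 (Fin.rev k) (Fin.rev j) ?_ ?_).symm
  · simp only [Fin.val_rev]; have := k.2; omega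
  · simp only [Fin.val_rev]; have := k.2; omega

/-- an explicit sequence is not Hamiltonian -/
theorem nt_seq {Q : Type} {l : ℕ} {R : SimpleGraph Q} (hnt : NT l R) (e : Fin l ≃ Q)
    (f : Fin l → Fin l) (hf : Function.Bijective f) :
    ¬ ∀ j k : Fin l, (k : ℕ) = j + 1 → R.Adj (e (f j)) (e (f k)) := by
  intro h
  exact hnt ((Equiv.ofBijective f hf).trans e) (fun j k hjk => by simpa using h j k hjk)

theorem nt5 {Q : Type} {R : SimpleGraph Q} (hnt : NT 5 R) (e : Fin 5 ≃ Q)
    (a b c d f : Fin 5) (hf : Function.Bijective ![a, b, c, d, f])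
    (h1 : R.Adj (e a) (e b)) (h2 : R.Adj (e b) (e c)) (h3 : R.Adj (e c) (e d))
    (h4 : R.Adj (e d) (e f)) : False := by
  refine nt_seq hnt e _ hf ?_
  intro j k hjk
  fin_cases j <;> fin_cases k <;> simp at hjk <;> first | exact h1 | exact h2 | exact h3 | exact h4

theorem cov5 {Q : Type} [Fintype Q] {R : SimpleGraph Q} (hQ : Fintype.card Q = 5) (hnt : NT 5 R) :
    {e : Fin 5 ≃ Q | Cov R 1 e}.ncard ≤ 12 := by
  classical
  set X := {e : Fin 5 ≃ Q | Cov R 1 e} with hX
  rcases X.eq_empty_or_nonempty with h0 | ⟨e0, he0⟩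
  · rw [h0]; simp
  have a01 : R.Adj (e0 0) (e0 1) := he0.2 0 1 rfl (by simp)
  have a23 : R.Adj (e0 2) (e0 3) := he0.2 2 3 rfl (by simp)
  have a34 : R.Adj (e0 3) (e0 4) := he0.2 3 4 rfl (by simp)
  have n12 : ¬ R.Adj (e0 1) (e0 2) := fun h => nt5 hnt e0 0 1 2 3 4 (by decide) a01 h a23 a34
  have n14 : ¬ R.Adj (e0 1) (e0 4) := fun h =>
    nt5 hnt e0 0 1 4 3 2 (by decide) a01 h a34.symm a23.symm
  have n02 : ¬ R.Adj (e0 0) (e0 2) := fun h =>
    nt5 hnt e0 1 0 2 3 4 (by decide) a01.symm h a23 a34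
  have n04 : ¬ R.Adj (e0 0) (e0 4) := fun h =>
    nt5 hnt e0 1 0 4 3 2 (by decide) a01.symm h a34.symm a23.symm
  -- the first two vertices of every cover are the same
  have key : ∀ e : Fin 5 ≃ Q, Cov R 1 e → ∀ j : Fin 5,
      (((e0.symm (e j) : Fin 5) : ℕ) ≤ 1 ↔ (j : ℕ) ≤ 1) := by
    intro e he
    have b01 : R.Adj (e0 (e0.symm (e 0))) (e0 (e0.symm (e 1))) := by
      simpa using he.2 0 1 rfl (by simp)
    have b23 : R.Adj (e0 (e0.symm (e 2))) (e0 (e0.symm (e 3))) := by
      simpa using he.2 2 3 rfl (by simp)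
    have b34 : R.Adj (e0 (e0.symm (e 3))) (e0 (e0.symm (e 4))) := by
      simpa using he.2 3 4 rfl (by simp)
    have hinj : ∀ j k : Fin 5, j ≠ k → ((e0.symm (e j) : Fin 5) : ℕ) ≠ e0.symm (e k) := by
      intro j k hjk h
      exact hjk (e.injective (e0.symm.injective (Fin.ext h)))
    have d01 := hinj 0 1 (by decide)
    have d02 := hinj 0 2 (by decide)
    have d03 := hinj 0 3 (by decide)
    have d04 := hinj 0 4 (by decide)
    have d12 := hinj 1 2 (by decide)
    have d13 := hinj 1 3 (by decide)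
    have d14 := hinj 1 4 (by decide)
    have d23 := hinj 2 3 (by decide)
    have d24 := hinj 2 4 (by decide)
    have d34 := hinj 3 4 (by decide)
    have l0 := (e0.symm (e 0)).2
    have l1 := (e0.symm (e 1)).2
    have l2 := (e0.symm (e 2)).2
    have l3 := (e0.symm (e 3)).2
    have l4 := (e0.symm (e 4)).2
    by_cases h24 : R.Adj (e0 2) (e0 4)
    · have n03 : ¬ R.Adj (e0 0) (e0 3) := fun h =>
        nt5 hnt e0 1 0 3 2 4 (by decide) a01.symm h a23.symm h24
      have n13 : ¬ R.Adj (e0 1) (e0 3) := fun h =>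
        nt5 hnt e0 0 1 3 2 4 (by decide) a01 h a23.symm h24
      have cls : ∀ p q : Fin 5, R.Adj (e0 p) (e0 q) → ((p : ℕ) ≤ 1 ↔ (q : ℕ) ≤ 1) := by
        intro p q h
        fin_cases p <;> fin_cases q <;>
          first
          | (simp; done)
          | exact absurd h n12
          | exact absurd h n14
          | exact absurd h n02
          | exact absurd h n04
          | exact absurd h n03
          | exact absurd h n13
          | exact absurd h.symm n12
          | exact absurd h.symm n14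
          | exact absurd h.symm n02
          | exact absurd h.symm n04
          | exact absurd h.symm n03
          | exact absurd h.symm n13
      have c01 := cls _ _ b01
      have c23 := cls _ _ b23
      have c34 := cls _ _ b34
      intro j
      fin_cases j <;> simp <;> omega
    · have cls : ∀ p q : Fin 5, R.Adj (e0 p) (e0 q) →
          ((p : ℕ) = 3 ∨ (q : ℕ) = 3 ∨ ((p : ℕ) ≤ 1 ∧ (q : ℕ) ≤ 1)) := by
        intro p q h
        fin_cases p <;> fin_cases q <;>
          first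
          | (simp; done)
          | exact absurd h (R.irrefl)
          | exact absurd h n12
          | exact absurd h n14
          | exact absurd h n02
          | exact absurd h n04
          | exact absurd h h24
          | exact absurd h.symm n12
          | exact absurd h.symm n14
          | exact absurd h.symm n02
          | exact absurd h.symm n04
          | exact absurd h.symm h24
      have c01 := cls _ _ b01
      have c23 := cls _ _ b23
      have c34 := cls _ _ b34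
      intro j
      fin_cases j <;> simp <;> omega
  set g : Q → Fin 2 := fun q => if ((e0.symm q : Fin 5) : ℕ) ≤ 1 then 0 else 1 with hg
  have h1 := fib g (fun j : Fin 5 => if (j : ℕ) ≤ 1 then (0 : Fin 2) else 1)
  have h2 : X ⊆ {t : Fin 5 ≃ Q | ∀ j, g (t j) = if (j : ℕ) ≤ 1 then (0 : Fin 2) else 1} := by
    intro e he j
    have := key e he j
    by_cases hj : (j : ℕ) ≤ 1
    · simp [hg, hj, this.2 hj]
    · have h3 : ¬ ((e0.symm (e j) : Fin 5) : ℕ) ≤ 1 := fun h => hj (this.1 h)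
      simp [hg, hj, h3]
  refine (Set.ncard_le_ncard h2 (Set.toFinite _)).trans (h1.trans ?_)
  rw [Fin.prod_univ_two]
  have c0 : {b | g b = 0} = {e0 0, e0 1} := by
    ext b
    obtain ⟨p, rfl⟩ := e0.surjective b
    simp only [hg, Set.mem_ofPred_eq, Equiv.symm_apply_apply, Set.mem_insert_iff,
      Set.mem_singleton_iff, EmbeddingLike.apply_eq_iff_eq]
    revert p; decide
  have c1 : {b | g b = 1} = {e0 0, e0 1}ᶜ := by
    rw [← c0]
    ext b
    simp only [Set.mem_ofPred_eq, Set.mem_compl_iff]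
    generalize g b = y
    revert y; decide
  rw [c0, c1, Set.ncard_compl, Set.ncard_pair (by simp), Nat.card_eq_fintype_card, hQ]
  decide

/-- **S_K1a5** -/
theorem k1a5 (hins : S_INS) (hpl : S_PL) : S_K1a5 := by
  classical
  intro Q _ R T hQ hnt hc hd
  unfold M1
  -- the break is in the middle
  have hz : ∀ (e : Fin 5 ≃ Q) (i : Fin 5) (t : Equiv.Perm (Fin 5)), Lead1 T e (i : ℕ) t →
      i = 1 ∨ i = 2 := by
    intro e i t h
    by_contra hcon
    push Not at hcon
    obtain ⟨a, b, ha, hb, hle⟩ := pl_gen hins hQ hnt hc hd (lead_cov hc h)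
    have hpos : 0 < {t : Equiv.Perm (Fin 5) | Lead1 T e (i : ℕ) t}.ncard := by
      rw [Set.ncard_pos (Set.toFinite _)]
      exact ⟨t, h⟩
    have hi5 : (i : ℕ) + 1 < 5 := h.1
    have hi : (i : ℕ) = 0 ∨ (i : ℕ) = 3 := by
      have h1 : (i : ℕ) ≠ 1 := fun h => hcon.1 (Fin.ext h)
      have h2 : (i : ℕ) ≠ 2 := fun h => hcon.2 (Fin.ext h)
      omega
    rcases hi with hi | hi
    · rw [hi, Nat.choose_eq_zero_of_lt (show 0 < a - 1 by omega)] at hle
      rw [hi] at hpos
      omega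
    · rw [hi, Nat.choose_eq_zero_of_lt (show 5 - 2 - 3 < b - 1 by omega)] at hle
      rw [hi] at hpos
      omega
  set Y : Set ((Fin 5 ≃ Q) × Fin 5) := {p | Cov R (p.2 : ℕ) p.1 ∧ (p.2 = 1 ∨ p.2 = 2)} with hY
  have hYc : Y.ncard ≤ 24 := by
    have hsub : Y ⊆ (fun e : Fin 5 ≃ Q => (e, (1 : Fin 5))) '' {e | Cov R 1 e} ∪
        (fun e : Fin 5 ≃ Q => ((Fin.revPerm.trans e : Fin 5 ≃ Q), (2 : Fin 5))) ''
          {e | Cov R 1 e} := by
      rintro ⟨e, i⟩ ⟨h1, h2⟩
      simp only at h1 h2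
      rcases h2 with rfl | rfl
      · exact Or.inl ⟨e, h1, rfl⟩
      · refine Or.inr ⟨Fin.revPerm.trans e, cov_rev h1, ?_⟩
        simp only [Prod.mk.injEq, and_true]
        ext j
        simp
    refine (Set.ncard_le_ncard hsub (Set.toFinite _)).trans ((Set.ncard_union_le _ _).trans ?_)
    have h1 := Set.ncard_image_le (f := fun e : Fin 5 ≃ Q => (e, (1 : Fin 5)))
      (Set.toFinite {e | Cov R 1 e})
    have h2 := Set.ncard_image_le
      (f := fun e : Fin 5 ≃ Q => ((Fin.revPerm.trans e : Fin 5 ≃ Q), (2 : Fin 5)))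
      (Set.toFinite {e | Cov R 1 e})
    have h3 := cov5 hQ hnt
    omega
  have h2 := ncard_le_mul {p : (Fin 5 ≃ Q) × Fin 5 × Equiv.Perm (Fin 5) |
    Lead1 T p.1 (p.2.1 : ℕ) p.2.2} (fun p => (p.1, p.2.1)) Y 12 ?_ ?_
  · omega
  · rintro ⟨e, i, t⟩ h
    exact ⟨lead_cov hc h, hz e i t h⟩
  · rintro ⟨e, i⟩ ⟨hcov, -⟩
    have h3 := hpl Q 5 R T (by norm_num) hQ hnt hc hd i e hcov
    have h4 : 2 * (5 - 2).factorial = 12 := by decide
    rw [h4] at h3
    refine le_trans ?_ h3
    refine Set.ncard_le_ncard_of_injOn (fun p => p.2.2) ?_ ?_ (Set.toFinite _)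
    · rintro ⟨e', i', t⟩ ⟨h1, h2⟩
      simp only [Prod.mk.injEq] at h2
      obtain ⟨rfl, rfl⟩ := h2
      exact h1
    · rintro ⟨e', i', t⟩ ⟨h1, h2⟩ ⟨e'', i'', t'⟩ ⟨h1', h2'⟩ h
      simp only [Prod.mk.injEq] at h2 h2'
      obtain ⟨rfl, rfl⟩ := h2
      obtain ⟨rfl, rfl⟩ := h2'
      simp only at h
      rw [h]

end Pool.Agent.Y433.PK
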