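import Pool.Agent.Y433.PK.K1a5
import Pool.Agent.Y433.PK.K1c

/-!
Project PK (MP_490135_co): exactly one pendant hub (`S_K1b`, `S_K1b5`).
-/

namespace Pool.Agent.Y433.PK

open Pool.Agent.Y494.PK

/-- splitting the leading configurations according to the position of the pendant hub -/
theorem m1_split (hc0 : S_CIRC0) {Q : Type} [Fintype Q] {l : ℕ} {R : SimpleGraph Q}
    {T : Fin l → Set Q} {v : Q} (hl : 3 ≤ l) (hQ : Fintype.card Q = l) (hnt : NT l R)
    (hc : Clq R T) (hv : ∃ w, R.Adj v w) (hd : dX T v = 1) (F : ℕ)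
    (hF : ∀ (i : Fin l) (e : Fin l ≃ Q), Cov R (i : ℕ) e → 1 ≤ (i : ℕ) → e i = v →
      {t : Equiv.Perm (Fin l) | Lead1 T e (i : ℕ) t}.ncard ≤ F) :
    M1 T ≤ 2 * ((l - 2).factorial * (l - 1).factorial +
      {p : (Fin l ≃ Q) × Fin l | Cov R (p.2 : ℕ) p.1 ∧ 1 ≤ (p.2 : ℕ) ∧ p.1 p.2 = v}.ncard * F) := by
  classical
  obtain ⟨y, hy⟩ := Set.ncard_eq_one.mp hd
  have hy' : ∀ x, v ∈ T x ↔ x = y := by
    intro x
    have : x ∈ {x | v ∈ T x} ↔ x ∈ ({y} : Set (Fin l)) := by rw [hy]
    simpa using this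
  set A : Set ((Fin l ≃ Q) × Fin l × Equiv.Perm (Fin l)) :=
    {p | Lead1 T p.1 (p.2.1 : ℕ) p.2.2 ∧ p.1 p.2.1 = v} with hA
  set A' : Set ((Fin l ≃ Q) × Fin l × Equiv.Perm (Fin l)) :=
    {p | Lead1 T p.1 (p.2.1 : ℕ) p.2.2 ∧ ∀ k : Fin l, (k : ℕ) = p.2.1 + 1 → p.1 k = v} with hA'
  have h1 : M1 T ≤ A.ncard + A'.ncard := by
    unfold M1
    refine (Set.ncard_le_ncard ?_ (Set.toFinite _)).trans (Set.ncard_union_le A A')
    rintro ⟨e, i, t⟩ h
    change Lead1 T e (i : ℕ) t at h
    by_cases hp : e i = v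
    · exact Or.inl ⟨h, hp⟩
    · refine Or.inr ⟨h, ?_⟩
      intro k hk
      simp only at hk ⊢
      by_contra hne
      have h3 := lead_two h (e.symm v) ?_ ?_
      · rw [Equiv.apply_symm_apply, hd] at h3; omega
      · intro h4
        apply hp
        have : e.symm v = i := Fin.ext h4
        rw [← this, Equiv.apply_symm_apply]
      · intro h4
        apply hne
        have : e.symm v = k := Fin.ext (by omega)
        rw [← this, Equiv.apply_symm_apply]
  have h2 : A'.ncard ≤ A.ncard := by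
    refine Set.ncard_le_ncard_of_injOn (fun p => ((Fin.revPerm.trans p.1 : Fin l ≃ Q),
      (⟨l - 2 - (p.2.1 : ℕ), by omega⟩ : Fin l),
      (Fin.revPerm.trans p.2.2 : Equiv.Perm (Fin l)))) ?_ ?_ (Set.toFinite _)
    · rintro ⟨e, i, t⟩ ⟨h, h'⟩
      simp only at h h'
      have hi := h.1
      refine ⟨lead_rev h, ?_⟩
      simp only [Equiv.trans_apply, Fin.revPerm_apply]
      refine h' _ ?_
      simp only [Fin.val_rev]
      omega
    · rintro ⟨e, i, t⟩ ⟨h, -⟩ ⟨e', i', t'⟩ ⟨h', -⟩ heq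
      simp only [Prod.mk.injEq, Fin.mk.injEq] at heq
      obtain ⟨q1, q2, q3⟩ := heq
      have hi := h.1
      have hi' := h'.1
      simp only at hi hi'
      have r1 : e = e' := by
        ext j
        have := congrArg (fun f : Fin l ≃ Q => f (Fin.rev j)) q1
        simpa using this
      have r3 : t = t' := by
        refine Equiv.ext fun j => ?_
        have := congrArg (fun f : Fin l ≃ Fin l => f (Fin.rev j)) q3
        simpa using this
      have r2 : i = i' := Fin.ext (by omega)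
      rw [r1, r2, r3]
  set A0 : Set ((Fin l ≃ Q) × Fin l × Equiv.Perm (Fin l)) := {p | p ∈ A ∧ (p.2.1 : ℕ) = 0} with hA0
  set A1 : Set ((Fin l ≃ Q) × Fin l × Equiv.Perm (Fin l)) := {p | p ∈ A ∧ 1 ≤ (p.2.1 : ℕ)} with hA1
  have h3 : A.ncard ≤ A0.ncard + A1.ncard := by
    refine (Set.ncard_le_ncard ?_ (Set.toFinite _)).trans (Set.ncard_union_le A0 A1)
    intro p hp
    rcases Nat.eq_zero_or_pos (p.2.1 : ℕ) with h | h
    · exact Or.inl ⟨hp, h⟩
    · exact Or.inr ⟨hp, h⟩
  have h4 : A0.ncard ≤ (l - 2).factorial * (l - 1).factorial := by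
    have h5 := ncard_le_mul A0 (fun p => p.1)
      {e : Fin l ≃ Q | Cov R 0 e ∧ ∀ j : Fin l, (j : ℕ) = 0 → e j = v} ((l - 1).factorial) ?_ ?_
    · exact h5.trans (Nat.mul_le_mul_right _ (hc0 Q l R v hl hQ hnt hv))
    · rintro ⟨e, i, t⟩ ⟨⟨h, h'⟩, h''⟩
      simp only at h h' h''
      rw [h''] at h
      refine ⟨lead_cov hc h, fun j hj => ?_⟩
      rw [← h']
      congr 1
      exact Fin.ext (by omega)
    · rintro e ⟨-, he⟩
      refine le_trans ?_ (one_fixed (Fintype.card_fin l) (α := Fin l) ⟨0, by omega⟩ y)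
      refine Set.ncard_le_ncard_of_injOn (fun p => p.2.2) ?_ ?_ (Set.toFinite _)
      · rintro ⟨e', i, t⟩ ⟨⟨⟨h, h'⟩, h''⟩, h3⟩
        simp only at h h' h'' h3
        subst h3
        have := h.2.1 ⟨0, by omega⟩
        rw [he _ rfl, hy'] at this
        exact this
      · rintro ⟨e', i, t⟩ ⟨⟨⟨h, h'⟩, h''⟩, h3⟩ ⟨e2, i2, t2⟩ ⟨⟨⟨k, k'⟩, k''⟩, k3⟩ heq
        simp only at h3 k3 heq h'' k''
        have : i = i2 := Fin.ext (by omega)
        rw [h3, k3, heq, this]
  have h5 : A1.ncard ≤ {p : (Fin l ≃ Q) × Fin l | Cov R (p.2 : ℕ) p.1 ∧ 1 ≤ (p.2 : ℕ) ∧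
      p.1 p.2 = v}.ncard * F := by
    refine ncard_le_mul A1 (fun p => (p.1, p.2.1)) _ F ?_ ?_
    · rintro ⟨e, i, t⟩ ⟨⟨h, h'⟩, h''⟩
      exact ⟨lead_cov hc h, h'', h'⟩
    · rintro ⟨e, i⟩ ⟨h, h', h''⟩
      refine le_trans ?_ (hF i e h h' h'')
      refine Set.ncard_le_ncard_of_injOn (fun p => p.2.2) ?_ ?_ (Set.toFinite _)
      · rintro ⟨e', i', t⟩ ⟨⟨⟨k, k'⟩, k''⟩, k3⟩
        simp only [Prod.mk.injEq] at k3
        obtain ⟨rfl, rfl⟩ := k3
        exact k
      · rintro ⟨e', i', t⟩ ⟨-, h2⟩ ⟨e'', i'', t'⟩ ⟨-, h2'⟩ heq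
        simp only [Prod.mk.injEq] at h2 h2'
        simp only at heq
        rw [h2.1, h2.2, h2'.1, h2'.2, heq]
  calc M1 T ≤ A.ncard + A'.ncard := h1
    _ ≤ 2 * A.ncard := by omega
    _ ≤ 2 * (A0.ncard + A1.ncard) := Nat.mul_le_mul_left _ h3
    _ ≤ _ := Nat.mul_le_mul_left _ (Nat.add_le_add h4 h5)

/-- placements when the pendant hub is just before the break -/
theorem k1b_fib (hins : S_INS) {Q : Type} [Fintype Q] {l : ℕ} {R : SimpleGraph Q}
    {T : Fin l → Set Q} {v : Q} (hQ : Fintype.card Q = l) (hnt : NT l R)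
    (hc : Clq R T) (hd : dX T v = 1) (hdd : ∀ h, h ≠ v → 2 ≤ dX T h)
    (i : Fin l) (e : Fin l ≃ Q) (hcov : Cov R (i : ℕ) e) (hev : e i = v) :
    ∃ b, 2 ≤ b ∧ {t : Equiv.Perm (Fin l) | Lead1 T e (i : ℕ) t}.ncard ≤
      (l - 2 - i).choose (b - 1) * (b.factorial * (l - 1 - b).factorial) := by
  classical
  obtain ⟨y, hy⟩ := Set.ncard_eq_one.mp hd
  have hy' : ∀ x, v ∈ T x ↔ x = y := by
    intro x
    have : x ∈ {x | v ∈ T x} ↔ x ∈ ({y} : Set (Fin l)) := by rw [hy]
    simpa using this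
  obtain ⟨s, s', hs, hs', h⟩ := pl_ins hins hQ hnt hc hcov
  have hne : e s' ≠ v := by
    rw [← hev]
    intro hh
    have := e.injective hh
    rw [this] at hs'
    omega
  refine ⟨dX T (e s'), hdd _ hne, ?_⟩
  have h1 := pl_raw hcov.1 {y} {x | e s' ∈ T x} i s' le_rfl hs'
    {t : Equiv.Perm (Fin l) | Lead1 T e (i : ℕ) t} ?_
  · rw [Set.ncard_singleton] at h1
    simpa [dX] using h1
  · intro t ht
    obtain ⟨h2, h3, h4, h5⟩ := h t ht
    have hti : t i = y := by
      have := ht.2.1 i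
      rw [hev, hy'] at this
      exact this
    refine ⟨hti, h3, ?_, h5⟩
    intro j hj
    have : j = i := t.injective (by rw [hti]; exact hj)
    rw [this]

/-- **S_K1b** -/
theorem k1b (hcv : S_CIRCv) (hc0 : S_CIRC0) (hins : S_INS) : S_K1b := by
  intro Q _ l R T v hl hQ hnt hc hv hdd hd
  have hK := hcv Q l R v (by omega) hQ hnt
  set F : ℕ := 3 * (l - 1).factorial / 10 with hFdef
  have hF10 : 10 * F ≤ 3 * (l - 1).factorial := by
    rw [hFdef]; exact Nat.mul_div_le _ _
  have hmain := m1_split hc0 (by omega) hQ hnt hc hv hd F ?_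
  · set K := {p : (Fin l ≃ Q) × Fin l | Cov R (p.2 : ℕ) p.1 ∧ 1 ≤ (p.2 : ℕ) ∧
      p.1 p.2 = v}.ncard with hKdef
    calc 10 * M1 T ≤ 10 * (2 * ((l - 2).factorial * (l - 1).factorial + K * F)) :=
          Nat.mul_le_mul_left _ hmain
      _ = 20 * (l - 2).factorial * (l - 1).factorial + (2 * K) * (10 * F) := by ring
      _ ≤ 20 * (l - 2).factorial * (l - 1).factorial +
          (l - 1).factorial * (3 * (l - 1).factorial) :=
          Nat.add_le_add_left (Nat.mul_le_mul hK hF10) _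
      _ = _ := by ring
  · intro i e hcov hi hev
    obtain ⟨b, hb, hle⟩ := k1b_fib hins hQ hnt hc hd hdd i e hcov hev
    rw [hFdef, Nat.le_div_iff_mul_le (by norm_num)]
    refine (Nat.mul_le_mul_right _ hle).trans ?_
    obtain ⟨N, rfl⟩ : ∃ N, l = N + 3 := ⟨l - 3, by omega⟩
    have hch : (N + 3 - 2 - (i : ℕ)).choose (b - 1) ≤ N.choose (b - 1) :=
      Nat.choose_le_choose _ (by omega)
    rcases Nat.lt_or_ge N (b - 1) with hlt | hge
    · rw [Nat.choose_eq_zero_of_lt hlt] at hch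
      have : (N + 3 - 2 - (i : ℕ)).choose (b - 1) = 0 := by omega
      rw [this]; simp
    · obtain ⟨c, rfl⟩ : ∃ c, b = c + 1 := ⟨b - 1, by omega⟩
      obtain ⟨d, rfl⟩ : ∃ d, N = c + d := ⟨N - c, by omega⟩
      simp only [Nat.add_sub_cancel] at hch hge ⊢
      have hcf : (c + d).choose c * c.factorial * d.factorial = (c + d).factorial := by
        have := Nat.choose_mul_factorial_mul_factorial (n := c + d) (k := c) (by omega)
        simpa using this
      have e1 : c + d + 3 - 1 - (c + 1) = d + 1 := by omega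
      have e2 : c + d + 3 - 1 = (c + d) + 2 := by omega
      rw [e1, e2, Nat.factorial_succ, Nat.factorial_succ d, Nat.factorial_succ (c + d + 1),
        Nat.factorial_succ (c + d)]
      calc (c + d + 3 - 2 - (i : ℕ)).choose c *
            ((c + 1) * c.factorial * ((d + 1) * d.factorial)) * 10
          ≤ (c + d).choose c * ((c + 1) * c.factorial * ((d + 1) * d.factorial)) * 10 :=
            Nat.mul_le_mul_right _ (Nat.mul_le_mul_right _ hch)
        _ = (10 * (c + 1) * (d + 1)) * ((c + d).choose c * c.factorial * d.factorial) := by ring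
        _ = (10 * (c + 1) * (d + 1)) * (c + d).factorial := by rw [hcf]
        _ ≤ (3 * ((c + d + 2) * (c + d + 1))) * (c + d).factorial := by
            refine Nat.mul_le_mul_right _ ?_
            have hcd : 3 ≤ c + d := by omega
            rcases Nat.lt_or_ge 3 (c + d) with h | h
            · zify at h ⊢
              nlinarith [sq_nonneg ((c : ℤ) - d)]
            · have : d = 3 - c := by omega
              subst this
              have hc3 : c ≤ 3 := by omega
              interval_cases c <;> simp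
        _ = 3 * ((c + d + 1 + 1) * ((c + d + 1) * (c + d).factorial)) := by ring

/-- **S_K1b5** -/
theorem k1b5 (hcv : S_CIRCv) (hc0 : S_CIRC0) (hins : S_INS) : S_K1b5 := by
  classical
  intro Q _ R T v hQ hnt hc hv hdd hd
  have hK := hcv Q 5 R v (by omega) hQ hnt
  have hmain := m1_split hc0 (by omega) hQ hnt hc hv hd 6 ?_
  · have f4 : (5 - 1).factorial = 24 := by decide
    have f3 : (5 - 2).factorial = 6 := by decide
    rw [f4] at hK hmain
    rw [f3] at hmain
    omega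
  · intro i e hcov hi hev
    have hi4 := hcov.1
    by_cases hi1 : (i : ℕ) = 1
    · have hi1' : i = 1 := Fin.ext hi1
      subst hi1'
      obtain ⟨y, hy⟩ := Set.ncard_eq_one.mp hd
      have hy' : ∀ x, v ∈ T x ↔ x = y := by
        intro x
        have : x ∈ {x | v ∈ T x} ↔ x ∈ ({y} : Set (Fin 5)) := by rw [hy]
        simpa using this
      have a01 : R.Adj (e 0) (e 1) := hcov.2 0 1 rfl (by simp)
      have a23 : R.Adj (e 2) (e 3) := hcov.2 2 3 rfl (by simp)
      have a34 : R.Adj (e 3) (e 4) := hcov.2 3 4 rfl (by simp)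
      have n02 : ¬ R.Adj (e 0) (e 2) := fun h =>
        nt5 hnt e 1 0 2 3 4 (by decide) a01.symm h a23 a34
      have n04 : ¬ R.Adj (e 0) (e 4) := fun h =>
        nt5 hnt e 1 0 4 3 2 (by decide) a01.symm h a34.symm a23.symm
      have hne0 : e 0 ≠ v := by
        rw [← hev]; simp
      have h2 := hdd _ hne0
      unfold dX at h2
      rw [show (2 : ℕ) = 1 + 1 from rfl, Nat.succ_le_iff] at h2
      obtain ⟨x, hx, hxy⟩ := Set.exists_ne_of_one_lt_ncard h2 y
      have h6 : (5 - 2).factorial = 6 := by decide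
      rw [← h6]
      refine le_trans (Set.ncard_le_ncard ?_ (Set.toFinite _))
        (two_fixed (Fintype.card_fin 5) (α := Fin 5) (i := 1) (k := 0) (by decide) hxy.symm)
      intro t ht
      change Lead1 T e 1 t at ht
      have ht1 : t 1 = y := by
        have := ht.2.1 1
        rwa [hev, hy'] at this
      refine ⟨ht1, ?_⟩
      obtain ⟨j, rfl⟩ := t.surjective x
      have hadj : ∀ r : Fin 5, e r ∈ T (t j) → (0 : Fin 5) ≠ r → R.Adj (e 0) (e r) := fun r hr hpr =>
        hc (t j) _ hx _ hr (fun hh => hpr (e.injective hh))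
      fin_cases j
      · rfl
      · exact absurd ht1 hxy
      · exact absurd (hadj 2 (ht.2.1 2) (by decide)) n02
      · exact absurd (hadj 4 (ht.2.2.2 3 4 rfl (by simp)) (by decide)) n04
      · exact absurd (hadj 4 (ht.2.1 4) (by decide)) n04
    · obtain ⟨b, hb, hle⟩ := k1b_fib hins hQ hnt hc hd hdd i e hcov hev
      refine hle.trans ?_
      have : (i : ℕ) = 2 ∨ (i : ℕ) = 3 := by omega
      rcases this with h | h
      · rw [h]
        rcases Nat.lt_or_ge 2 b with hb2 | hb2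
        · rw [Nat.choose_eq_zero_of_lt (show 5 - 2 - 2 < b - 1 by omega)]; simp
        · have : b = 2 := by omega
          subst this
          decide
      · rw [h, Nat.choose_eq_zero_of_lt (show 5 - 2 - 3 < b - 1 by omega)]; simp

end Pool.Agent.Y433.PK
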