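import Pool.Agent.Y433.PK.Base

/-!
Project PK (MP_490135_co): placements (`S_PL`) and covers without a pendant hub (`S_K1a`).
-/

namespace Pool.Agent.Y433.PK

open Pool.Agent.Y494.PK

theorem fac_mul (a b : ℕ) (ha : 2 ≤ a) (hb : 2 ≤ b) :
    a.factorial * b.factorial ≤ 2 * (a + b - 2).factorial := by
  induction a, ha using Nat.le_induction with
  | base => simp [Nat.factorial]
  | succ a ha ih =>
    have e1 : a + 1 + b - 2 = (a + b - 2) + 1 := by omega
    rw [e1, Nat.factorial_succ, Nat.factorial_succ (a + b - 2)]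
    calc (a + 1) * a.factorial * b.factorial = (a + 1) * (a.factorial * b.factorial) := by ring
      _ ≤ (a + b - 2 + 1) * (2 * (a + b - 2).factorial) := Nat.mul_le_mul (by omega) ih
      _ = _ := by ring

theorem choose_mul_le (m n a b : ℕ) :
    m.choose a * n.choose b ≤ (m + n).choose (a + b) := by
  rw [Nat.add_choose_eq]
  exact Finset.single_le_sum (f := fun ij : ℕ × ℕ => m.choose ij.1 * n.choose ij.2)
    (a := (a, b)) (fun _ _ => Nat.zero_le _) (by simp)

/-- placements with two constrained classes -/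
theorem pl_raw {l i : ℕ} (hi : i + 1 < l) (R1 R2 : Set (Fin l)) (s s' : Fin l)
    (hs : (s : ℕ) ≤ i) (hs' : i < (s' : ℕ)) (X : Set (Equiv.Perm (Fin l)))
    (hX : ∀ t ∈ X, t s ∈ R1 ∧ t s' ∈ R2 ∧ (∀ j, t j ∈ R1 → (j : ℕ) ≤ i) ∧
      (∀ j, t j ∈ R2 → i < (j : ℕ))) :
    X.ncard ≤ (i.choose (R1.ncard - 1) * (l - 2 - i).choose (R2.ncard - 1)) *
      (R1.ncard.factorial * R2.ncard.factorial * (l - R1.ncard - R2.ncard).factorial) := by
  classical
  rcases X.eq_empty_or_nonempty with h0 | ⟨t0, ht0⟩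
  · rw [h0]; simp
  have hdis : ∀ x, x ∈ R1 → x ∉ R2 := by
    intro x h1 h2
    obtain ⟨-, -, h3, h4⟩ := hX t0 ht0
    have h5 := h3 (t0.symm x) (by simpa using h1)
    have h6 := h4 (t0.symm x) (by simpa using h2)
    omega
  set g : Fin l → Fin 3 := fun x => if x ∈ R1 then 0 else if x ∈ R2 then 1 else 2 with hg
  have hg0 : ∀ x, g x = 0 ↔ x ∈ R1 := by
    intro x
    by_cases h1 : x ∈ R1
    · simp [hg, h1]
    · by_cases h2 : x ∈ R2 <;> simp [hg, h1, h2]
  have hg1 : ∀ x, g x = 1 ↔ x ∈ R2 := by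
    intro x
    by_cases h1 : x ∈ R1
    · simp [hg, h1, hdis x h1]
    · by_cases h2 : x ∈ R2 <;> simp [hg, h1, h2]
  have hg2 : ∀ x, g x = 2 ↔ x ∉ R1 ∪ R2 := by
    intro x
    by_cases h1 : x ∈ R1
    · simp [hg, h1]
    · by_cases h2 : x ∈ R2 <;> simp [hg, h1, h2]
  have c0 : {b | g b = 0}.ncard = R1.ncard := by
    congr 1; ext x; exact hg0 x
  have c1 : {b | g b = 1}.ncard = R2.ncard := by
    congr 1; ext x; exact hg1 x
  have c2 : {b | g b = 2}.ncard = l - R1.ncard - R2.ncard := by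
    have e : {b | g b = 2} = (R1 ∪ R2)ᶜ := by ext x; exact hg2 x
    rw [e, Set.ncard_compl, Set.ncard_union_eq]
    · simp [Nat.sub_sub]
    · rw [Set.disjoint_left]; exact hdis
  set W : Set (Fin l → Fin 3) := {w | w s = 0 ∧ w s' = 1 ∧ (∀ j, w j = 0 → (j : ℕ) ≤ i) ∧
    (∀ j, w j = 1 → i < (j : ℕ)) ∧ {j | w j = 0}.ncard = R1.ncard ∧
    {j | w j = 1}.ncard = R2.ncard} with hW
  have hXW : ∀ t ∈ X, (fun j => g (t j)) ∈ W := by
    intro t ht
    obtain ⟨h1, h2, h3, h4⟩ := hX t ht
    refine ⟨(hg0 _).2 h1, (hg1 _).2 h2, fun j hj => h3 j ((hg0 _).1 hj),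
      fun j hj => h4 j ((hg1 _).1 hj), ?_, ?_⟩
    · have : {j | g (t j) = 0} = t.symm '' R1 := by
        ext j
        simp only [Set.mem_image, Set.mem_ofPred_eq]
        rw [hg0]
        constructor
        · intro h; exact ⟨t j, h, by simp⟩
        · rintro ⟨x, hx, rfl⟩; simpa using hx
      rw [this, Set.ncard_image_of_injective _ t.symm.injective]
    · have : {j | g (t j) = 1} = t.symm '' R2 := by
        ext j
        simp only [Set.mem_image, Set.mem_ofPred_eq]
        rw [hg1]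
        constructor
        · intro h; exact ⟨t j, h, by simp⟩
        · rintro ⟨x, hx, rfl⟩; simpa using hx
      rw [this, Set.ncard_image_of_injective _ t.symm.injective]
  have hmain := fibW g X W hXW
  rw [Fin.prod_univ_three, c0, c1, c2] at hmain
  refine hmain.trans (Nat.mul_le_mul_right _ ?_)
  -- the number of words
  set P1 : Finset (Fin l) := Finset.univ.filter (fun j => (j : ℕ) ≤ i ∧ j ≠ s) with hP1
  set P2 : Finset (Fin l) := Finset.univ.filter (fun j => i < (j : ℕ) ∧ j ≠ s') with hP2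
  have cP1 : P1.card = i := by
    have e1 : P1 = (Finset.univ.filter (fun j : Fin l => (j : ℕ) ≤ i)).erase s := by
      ext j; simp [hP1, and_comm]
    have e2 : (Finset.univ.filter (fun j : Fin l => (j : ℕ) ≤ i)).card = i + 1 := by
      have : (Finset.univ.filter (fun j : Fin l => (j : ℕ) ≤ i)) = Finset.Iic ⟨i, by omega⟩ := by
        ext j; simp [Fin.le_def]
      rw [this, Fin.card_Iic]
    rw [e1, Finset.card_erase_of_mem (by simp [hs]), e2]; rfl
  have cP2 : P2.card = l - 2 - i := by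
    have e1 : P2 = (Finset.univ.filter (fun j : Fin l => i < (j : ℕ))).erase s' := by
      ext j; simp [hP2, and_comm]
    have e2 : (Finset.univ.filter (fun j : Fin l => i < (j : ℕ))).card = l - 1 - i := by
      have : (Finset.univ.filter (fun j : Fin l => i < (j : ℕ))) = Finset.Ioi ⟨i, by omega⟩ := by
        ext j; simp [Fin.lt_def]
      rw [this, Fin.card_Ioi]
    rw [e1, Finset.card_erase_of_mem (by simp [hs']), e2]; omega
  have hcard : ((P1.powersetCard (R1.ncard - 1) ×ˢ P2.powersetCard (R2.ncard - 1) :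
      Finset (Finset (Fin l) × Finset (Fin l))) : Set (Finset (Fin l) × Finset (Fin l))).ncard
      = i.choose (R1.ncard - 1) * (l - 2 - i).choose (R2.ncard - 1) := by
    rw [Set.ncard_coe_finset, Finset.card_product, Finset.card_powersetCard,
      Finset.card_powersetCard, cP1, cP2]
  rw [← hcard]
  refine Set.ncard_le_ncard_of_injOn
    (fun w => (Finset.univ.filter (fun j => w j = 0 ∧ j ≠ s),
      Finset.univ.filter (fun j => w j = 1 ∧ j ≠ s'))) ?_ ?_ (Set.toFinite _)
  · rintro w ⟨h1, h2, h3, h4, h5, h6⟩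
    simp only [Finset.coe_product, Set.mem_prod, Finset.mem_coe, Finset.mem_powersetCard]
    refine ⟨⟨?_, ?_⟩, ⟨?_, ?_⟩⟩
    · intro j hj
      simp only [Finset.mem_filter, Finset.mem_univ, true_and, hP1] at hj ⊢
      exact ⟨h3 j hj.1, hj.2⟩
    · rw [← h5, Set.ncard_eq_toFinset_card']
      have : (Finset.univ.filter (fun j => w j = 0 ∧ j ≠ s)) =
          ({j | w j = 0} : Set (Fin l)).toFinset.erase s := by
        ext j; simp [and_comm]
      rw [this, Finset.card_erase_of_mem (by simp [h1])]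
    · intro j hj
      simp only [Finset.mem_filter, Finset.mem_univ, true_and, hP2] at hj ⊢
      exact ⟨h4 j hj.1, hj.2⟩
    · rw [← h6, Set.ncard_eq_toFinset_card']
      have : (Finset.univ.filter (fun j => w j = 1 ∧ j ≠ s')) =
          ({j | w j = 1} : Set (Fin l)).toFinset.erase s' := by
        ext j; simp [and_comm]
      rw [this, Finset.card_erase_of_mem (by simp [h2])]
  · rintro w ⟨h1, h2, h3, h4, h5, h6⟩ w' ⟨h1', h2', h3', h4', h5', h6'⟩ heq
    simp only [Prod.mk.injEq] at heq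
    obtain ⟨ha, hb⟩ := heq
    have k0 : ∀ j, w j = 0 ↔ w' j = 0 := by
      intro j
      by_cases hj : j = s
      · subst hj; simp [h1, h1']
      · have := Finset.ext_iff.mp ha j
        simpa [hj] using this
    have k1 : ∀ j, w j = 1 ↔ w' j = 1 := by
      intro j
      by_cases hj : j = s'
      · subst hj; simp [h2, h2']
      · have := Finset.ext_iff.mp hb j
        simpa [hj] using this
    funext j
    have q0 := k0 j
    have q1 := k1 j
    revert q0 q1
    generalize w j = x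
    generalize w' j = y
    revert x y
    decide

/-- the two classes given by the insertion lemma -/
theorem pl_ins (hins : S_INS) {Q : Type} [Fintype Q] {l : ℕ} {R : SimpleGraph Q}
    {T : Fin l → Set Q} (hQ : Fintype.card Q = l) (hnt : NT l R) (hc : Clq R T)
    {i : ℕ} {e : Fin l ≃ Q} (hcov : Cov R i e) :
    ∃ s s' : Fin l, (s : ℕ) ≤ i ∧ i < (s' : ℕ) ∧ ∀ t, Lead1 T e i t →
      t s ∈ {x | e s ∈ T x} ∧ t s' ∈ {x | e s' ∈ T x} ∧
      (∀ j, t j ∈ {x | e s ∈ T x} → (j : ℕ) ≤ i) ∧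
      (∀ j, t j ∈ {x | e s' ∈ T x} → i < (j : ℕ)) := by
  obtain ⟨⟨s, hs, hsa, hsb⟩, s', hs', hsa', hsb'⟩ := hins Q l R hQ hnt i e hcov
  refine ⟨s, s', hs, hs', ?_⟩
  intro t ht
  obtain ⟨h1, h2, h3, h4⟩ := ht
  refine ⟨h2 s, h2 s', ?_, ?_⟩
  · intro j hj
    by_contra hlt
    push Not at hlt
    have hne : e s ≠ e j := by
      intro h
      have := e.injective h
      rw [this] at hs; omega
    have hadj : R.Adj (e s) (e j) := hc (t j) _ hj _ (h2 j) hne
    by_cases hjl : (j : ℕ) + 1 = l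
    · exact hsb j hjl hadj
    · have hk : (j : ℕ) + 1 < l := by have := j.2; omega
      refine hsa j ⟨(j : ℕ) + 1, hk⟩ rfl hlt ⟨hadj, ?_⟩
      refine hc (t j) _ hj _ (h4 j ⟨(j : ℕ) + 1, hk⟩ rfl hlt) ?_
      intro h
      have := congrArg Fin.val (e.injective h)
      simp at this; omega
  · intro j hj
    by_contra hlt
    push Not at hlt
    have hne : e s' ≠ e j := by
      intro h
      have := e.injective h
      rw [this] at hs'; omega
    have hadj : R.Adj (e s') (e j) := hc (t j) _ hj _ (h2 j) hne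
    by_cases hjl : (j : ℕ) = 0
    · exact hsb' j hjl hadj
    · have hk : (j : ℕ) - 1 < l := by have := j.2; omega
      refine hsa' ⟨(j : ℕ) - 1, hk⟩ j (by simp; omega) hlt ⟨?_, hadj⟩
      refine hc (t j) _ hj _ (h3 ⟨(j : ℕ) - 1, hk⟩ j (by simp; omega) hlt) ?_
      intro h
      have := congrArg Fin.val (e.injective h)
      simp at this; omega

theorem pl_bound {l i a b : ℕ} (hi : i + 1 < l) (ha : 2 ≤ a) (hb : 2 ≤ b) :
    (i.choose (a - 1) * (l - 2 - i).choose (b - 1)) *
      (a.factorial * b.factorial * (l - a - b).factorial) ≤ 2 * (l - 2).factorial := by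
  have h1 := choose_mul_le i (l - 2 - i) (a - 1) (b - 1)
  rw [show i + (l - 2 - i) = l - 2 by omega, show a - 1 + (b - 1) = a + b - 2 by omega] at h1
  rcases Nat.lt_or_ge (l - 2) (a + b - 2) with h | h
  · rw [Nat.choose_eq_zero_of_lt h] at h1
    have : i.choose (a - 1) * (l - 2 - i).choose (b - 1) = 0 := by omega
    rw [this]; simp
  · have h2 := Nat.choose_mul_factorial_mul_factorial h
    rw [show l - 2 - (a + b - 2) = l - a - b by omega] at h2
    calc (i.choose (a - 1) * (l - 2 - i).choose (b - 1)) *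
        (a.factorial * b.factorial * (l - a - b).factorial)
        ≤ (l - 2).choose (a + b - 2) * ((2 * (a + b - 2).factorial) * (l - a - b).factorial) :=
          Nat.mul_le_mul h1 (Nat.mul_le_mul_right _ (fac_mul a b ha hb))
      _ = 2 * ((l - 2).choose (a + b - 2) * (a + b - 2).factorial * (l - a - b).factorial) := by
          ring
      _ = _ := by rw [h2]

/-- a version with the number of positions on both sides -/
theorem pl_gen (hins : S_INS) {Q : Type} [Fintype Q] {l : ℕ} {R : SimpleGraph Q}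
    {T : Fin l → Set Q} (hQ : Fintype.card Q = l) (hnt : NT l R) (hc : Clq R T)
    (hd : ∀ h, 2 ≤ dX T h) {i : ℕ} {e : Fin l ≃ Q} (hcov : Cov R i e) :
    ∃ a b : ℕ, 2 ≤ a ∧ 2 ≤ b ∧ {t : Equiv.Perm (Fin l) | Lead1 T e i t}.ncard ≤
      (i.choose (a - 1) * (l - 2 - i).choose (b - 1)) *
      (a.factorial * b.factorial * (l - a - b).factorial) := by
  obtain ⟨s, s', hs, hs', h⟩ := pl_ins hins hQ hnt hc hcov
  exact ⟨_, _, hd (e s), hd (e s'), pl_raw hcov.1 _ _ s s' hs hs' _ h⟩

/-- **S_PL** -/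
theorem pl (hins : S_INS) : S_PL := by
  intro Q _ l R T hl hQ hnt hc hd i e hcov
  obtain ⟨a, b, ha, hb, h⟩ := pl_gen hins hQ hnt hc hd hcov
  exact h.trans (pl_bound hcov.1 ha hb)

/-- **S_K1a** -/
theorem k1a (hcirc : S_CIRC) (hpl : S_PL) : S_K1a := by
  intro Q _ l R T hl hQ hnt hc hd
  unfold M1
  have h1 := hcirc Q l R (by omega) hQ hnt
  have h2 := ncard_le_mul {p : (Fin l ≃ Q) × Fin l × Equiv.Perm (Fin l) |
    Lead1 T p.1 (p.2.1 : ℕ) p.2.2} (fun p => (p.1, p.2.1))
    {p : (Fin l ≃ Q) × Fin l | Cov R (p.2 : ℕ) p.1} (2 * (l - 2).factorial) ?_ ?_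
  · refine h2.trans ?_
    calc {p : (Fin l ≃ Q) × Fin l | Cov R (p.2 : ℕ) p.1}.ncard * (2 * (l - 2).factorial)
        ≤ (2 * (l - 1).factorial) * (2 * (l - 2).factorial) := Nat.mul_le_mul_right _ h1
      _ = _ := by ring
  · rintro ⟨e, i, t⟩ h
    exact lead_cov hc h
  · rintro ⟨e, i⟩ hcov
    refine le_trans ?_ (hpl Q l R T hl hQ hnt hc hd i e hcov)
    refine Set.ncard_le_ncard_of_injOn (fun p => p.2.2) ?_ ?_ (Set.toFinite _)
    · rintro ⟨e', i', t⟩ ⟨h1, h2⟩
      simp only [Prod.mk.injEq] at h2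
      obtain ⟨rfl, rfl⟩ := h2
      exact h1
    · rintro ⟨e', i', t⟩ ⟨h1, h2⟩ ⟨e'', i'', t'⟩ ⟨h1', h2'⟩ h
      simp only [Prod.mk.injEq] at h2 h2'
      obtain ⟨rfl, rfl⟩ := h2
      obtain ⟨rfl, rfl⟩ := h2'
      simp only at h
      rw [h]

end Pool.Agent.Y433.PK
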